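import Mathlib

/-!
# Project NF: a covering map homotopic to a map onto on fundamental groups is injective
-/

set_option autoImplicit false

open Set Filter Topology Metric Function
open scoped unitInterval

noncomputable section

namespace Pool.Agent.L7h45.NF

variable {X Y : Type} [TopologicalSpace X] [TopologicalSpace Y]

/-- `f` is onto on fundamental groups: every loop at a point `f x` is homotopic (relative to the end
points) to the image of a loop at `x` -/
def OntoPi1 (f : C(X, Y)) : Prop :=
  ∀ (x : X) (γ : Path (f x) (f x)), ∃ δ : Path x x, (δ.map f.continuous).Homotopic γ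

theorem inj_of_lift {G : C(X, Y)} (cov : IsCoveringMap G) {a b : X} (hab : G b = G a)
    (q : Path a b) (hq : ((q.map G.continuous).cast rfl hab.symm).Homotopic (Path.refl (G a))) :
    a = b := by
  have h1 := cov.monodromy_eq_of_map_eq (γ := Path.Homotopic.Quotient.refl (G a))
    (ex := ⟨a, rfl⟩) (ey := ⟨b, hab⟩) (Path.Homotopic.Quotient.mk q) (by
      have h2 := (Path.Homotopic.Quotient.eq (p := (q.map G.continuous).cast rfl hab.symm)
        (q := Path.refl (G a))).2 hq
      have h3 : (Path.Homotopic.Quotient.mk q).map ⟨G, cov.continuous⟩ =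
        Path.Homotopic.Quotient.mk (q.map G.continuous) := rfl
      rw [h3, ← Path.Homotopic.Quotient.mk_refl, ← h2]
      rfl)
  rw [cov.monodromy_refl] at h1
  exact congrArg Subtype.val h1

theorem cov_inj [T2Space X] [T2Space Y] [CompactSpace X] [PathConnectedSpace X] {f G : C(X, Y)}
    (hG : IsLocalHomeomorph G) (hfG : f.Homotopic G) (hf : OntoPi1 f) : Injective G := by
  have cov : IsCoveringMap G := isLocalHomeomorph_iff_isCoveringMap.1 hG
  intro a b hab
  obtain ⟨H⟩ := hfG
  obtain ⟨p⟩ := PathConnectedSpace.joined a b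
  let p := p
  set eA : Path (f a) (G a) := H.evalAt a with heA
  set eB : Path (f b) (G a) := (H.evalAt b).cast rfl hab with heB
  obtain ⟨δ, hδ⟩ := hf a ((eA.trans eB.symm).trans (p.map f.continuous).symm)
  set q : Path a b := δ.trans p with hq
  refine inj_of_lift cov hab.symm q ?_
  -- naturality
  have h1 := Path.Homotopic.map_trans_evalAt H q
  have h2 : ((q.map f.continuous).trans eB).Homotopic
      (eA.trans ((q.map G.continuous).cast rfl hab)) := by
    obtain ⟨K⟩ := h1
    exact ⟨(K.pathCast rfl hab).cast rfl rfl⟩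
  have h3 : q.map f.continuous = (δ.map f.continuous).trans (p.map f.continuous) :=
    Path.map_trans _ _ _
  rw [h3] at h2
  set A := Path.Homotopic.Quotient.mk eA
  set B := Path.Homotopic.Quotient.mk eB
  set P := Path.Homotopic.Quotient.mk (p.map f.continuous)
  set D := Path.Homotopic.Quotient.mk (δ.map f.continuous)
  set Q := Path.Homotopic.Quotient.mk ((q.map G.continuous).cast rfl hab)
  have h4 : (D.trans P).trans B = A.trans Q := (Path.Homotopic.Quotient.eq).2 h2
  have h5 : D = (A.trans B.symm).trans P.symm := (Path.Homotopic.Quotient.eq).2 hδ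
  have h6 : A.trans Q = A := by
    rw [← h4, h5, Path.Homotopic.Quotient.trans_assoc (A.trans B.symm) P.symm P,
      Path.Homotopic.Quotient.symm_trans, Path.Homotopic.Quotient.trans_refl,
      Path.Homotopic.Quotient.trans_assoc A B.symm B,
      Path.Homotopic.Quotient.symm_trans, Path.Homotopic.Quotient.trans_refl]
  have h7 : Q = Path.Homotopic.Quotient.refl (G a) := by
    have h8 : A.symm.trans (A.trans Q) = A.symm.trans A := by rw [h6]
    rwa [← Path.Homotopic.Quotient.trans_assoc, Path.Homotopic.Quotient.symm_trans,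
      Path.Homotopic.Quotient.refl_trans] at h8
  exact (Path.Homotopic.Quotient.eq).1 h7

theorem OntoPi1.of_simplyConnected [SimplyConnectedSpace Y] (f : C(X, Y)) : OntoPi1 f :=
  fun x γ => ⟨Path.refl x, SimplyConnectedSpace.paths_homotopic _ _⟩

open CategoryTheory in
theorem OntoPi1.of_equiv (f : C(X, Y)) (e : ContinuousMap.HomotopyEquiv X Y) (h : e.toFun = f) :
    OntoPi1 f := by
  subst h
  intro x γ
  have hfull : (FundamentalGroupoid.map e.toFun).Full :=
    inferInstanceAs (FundamentalGroupoidFunctor.equivOfHomotopyEquiv e).functor.Full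
  obtain ⟨δ, hδ⟩ := hfull.map_surjective (X := FundamentalGroupoid.mk x)
    (Y := FundamentalGroupoid.mk x) (Path.Homotopic.Quotient.mk γ)
  obtain ⟨δ', rfl⟩ := Path.Homotopic.Quotient.mk_surjective δ
  exact ⟨δ', (Path.Homotopic.Quotient.eq).1 hδ⟩

end Pool.Agent.L7h45.NF
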