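import Pool.Agent.L7h20.NF.Stm3
import Pool.Agent.L7h17.AH.Tub
import Pool.Agent.L7h45.NF.Cov

/-!
# Project NF: closed manifolds

`S_COREY` (helper20) and the covering argument give: a smooth map `f : X → Y` of closed connected
manifolds of dimension `m + 1`, of rank at least `m` at all points, regular on a dense set, without folds, onto on
fundamental groups, is a limit of diffeomorphisms homotopic to `f`.
-/

set_option autoImplicit false
set_option linter.unusedSectionVars false

open Set Filter Topology Metric Function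
open scoped Manifold ContDiff

noncomputable section

namespace Pool.Agent.L7h45.NF

open Pool.Agent.Y522 Pool.Agent.L7h20.NF

/-- closed manifolds -/
def S_CLOSED : Prop :=
  ∀ (m : ℕ) (X Y : Type) [TopologicalSpace X] [T2Space X] [CompactSpace X] [ConnectedSpace X]
    [ChartedSpace (E (m + 1)) X] [IsManifold (𝓡 (m + 1)) ∞ X]
    [TopologicalSpace Y] [T2Space Y] [CompactSpace Y] [ConnectedSpace Y]
    [ChartedSpace (E (m + 1)) Y] [IsManifold (𝓡 (m + 1)) ∞ Y] (f : C(X, Y)),
    SettingY (m := m) f → (∀ x, ¬ LD (m + 1) f x → RkY (m := m) f x) → OntoPi1 f →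
    ∀ O : Set (X × Y), IsOpen O → (∀ x, (x, f x) ∈ O) →
      ∃ G : Diffeomorph (𝓡 (m + 1)) (𝓡 (m + 1)) X Y ∞, (∀ x, (x, G x) ∈ O) ∧
        f.Homotopic ⟨G, G.continuous⟩

/-- a closed manifold is a smooth retract of a neighbourhood in some `E a` -/
theorem exists_ret (m : ℕ) (Y : Type) [TopologicalSpace Y] [T2Space Y] [CompactSpace Y] [Nonempty Y]
    [ChartedSpace (E (m + 1)) Y] [IsManifold (𝓡 (m + 1)) ∞ Y] :
    ∃ (a : ℕ) (κ : Y → E a) (ρ : E a → Y) (U : Set (E a)), Ret (m := m) κ ρ U := by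
  obtain ⟨a, e, h1, h2, h3⟩ := exists_embedding_euclidean_of_compact (I := 𝓡 (m + 1)) (M := Y)
  obtain ⟨U, ρ, hU, hs, hr, hf⟩ := Pool.Agent.L7h17.AH.s_TUB (m + 1) Y (E a) e
    ⟨h1, h2.injective, h3⟩ inferInstance
  exact ⟨a, e, ρ, U, hU, fun y => hs ⟨y, rfl⟩, h1, fun u hu =>
    (hr u hu).contMDiffAt (hU.mem_nhds hu), hf⟩

theorem s_CLOSED (h : S_COREY) : S_CLOSED := by
  intro m X Y _ _ _ _ _ _ _ _ _ _ _ _ f hset hrk honto O hO hgr
  have hf : Continuous f := f.continuous
  obtain ⟨a, κ, ρ, U, hR⟩ := exists_ret m Y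
  have hκ : Continuous κ := hR.smk.continuous
  -- the singular set
  have hSo : IsOpen {x : X | LD (m + 1) f x} := by
    rw [isOpen_iff_eventually]
    intro x hx
    exact LD.eventually hx
  have hS : IsCompact {x : X | ¬ LD (m + 1) f x} := hSo.isClosed_compl.isCompact
  obtain ⟨C, -, hC⟩ := h m a X Y κ ρ U f hR hset hS hrk
  -- a neighbourhood in which the segments stay in `U`
  obtain ⟨ε, hε, hεU⟩ := (isCompact_range hκ).exists_thickening_subset_open hR.op
    (range_subset_iff.2 hR.mem)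
  obtain ⟨G, hG, -, hGO⟩ := hC (O ∩ {p | dist (κ (f p.1)) (κ p.2) < ε})
    (hO.inter (isOpen_lt (((hκ.comp hf).comp continuous_fst).dist (hκ.comp continuous_snd))
      continuous_const)) (fun x => ⟨hgr x, by simpa using hε⟩)
  have hGld : IsLocalDiffeomorph (𝓡 (m + 1)) (𝓡 (m + 1)) ∞ G := fun x => hG x
  have hGc : Continuous G := continuous_iff_continuousAt.2 fun x => LD.continuousAt (hG x)
  have hloc : IsLocalHomeomorph G := hGld.isLocalHomeomorph
  let g : C(X, Y) := ⟨G, hGc⟩
  have hseg : ∀ (x : X) (t : ℝ), 0 ≤ t → t ≤ 1 → (1 - t) • κ (f x) + t • κ (G x) ∈ U := by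
    intro x t h0 h1
    refine hεU (mem_thickening_iff.2 ⟨κ (f x), ⟨f x, rfl⟩, ?_⟩)
    have h2 : dist (κ (f x)) (κ (G x)) < ε := (hGO x).2
    rw [dist_eq_norm] at h2 ⊢
    have h3 : (1 - t) • κ (f x) + t • κ (G x) - κ (f x) = - (t • (κ (f x) - κ (G x))) := by
      module
    rw [h3, norm_neg, norm_smul, Real.norm_of_nonneg h0]
    calc t * ‖κ (f x) - κ (G x)‖ ≤ 1 * ‖κ (f x) - κ (G x)‖ :=
          mul_le_mul_of_nonneg_right h1 (norm_nonneg _)
      _ < ε := by rwa [one_mul]
  have hρ : ContinuousOn ρ U := fun u hu => (hR.smr u hu).continuousAt.continuousWithinAt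
  have hfg : f.Homotopic g := by
    refine ⟨⟨⟨fun p : unitInterval × X =>
      ρ ((1 - (p.1 : ℝ)) • κ (f p.2) + (p.1 : ℝ) • κ (G p.2)), ?_⟩, ?_, ?_⟩⟩
    · refine hρ.comp_continuous ?_ fun p => hseg p.2 p.1 p.1.2.1 p.1.2.2
      fun_prop
    · intro x
      simp [hR.ret]
    · intro x
      simp [hR.ret, g]
  have : LocallyPathConnectedSpace X := ChartedSpace.locallyPathConnectedSpace (E (m + 1)) X
  have : PathConnectedSpace X := pathConnectedSpace_iff_connectedSpace.2 inferInstance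
  have hinj : Injective G := cov_inj (f := f) (G := g) hloc hfg honto
  have hsurj : Surjective G := by
    rw [← range_eq_univ]
    exact IsClopen.eq_univ ⟨(isCompact_range hGc).isClosed, hloc.isOpenMap.isOpen_range⟩
      (range_nonempty G)
  exact ⟨hGld.diffeomorphOfBijective ⟨hinj, hsurj⟩, fun x => (hGO x).1, hfg⟩

end Pool.Agent.L7h45.NF

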