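import Pool.Agent.H774R3.LemB
import Pool.Agent.H774R3.ScM
import Pool.Agent.L7h32.SX.Top

/-!
# Project NF: `CP²`, its one-point blowup and `S² × S²` are simply connected
-/

set_option autoImplicit false

open Set Filter Topology Metric Module
open scoped ComplexConjugate

noncomputable section

namespace Pool.Agent.L7h45.NF

open Pool.Agent.L7h32.SX

/-- nonzero vectors -/
abbrev NZ (n : ℕ) : Type := {z : Fin n → ℂ // z ≠ 0}

theorem sc_nz (n : ℕ) (hn : 2 ≤ n) : SimplyConnectedSpace (NZ n) := by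
  have h1 : SimplyConnectedSpace (sphere (0 : EuclideanSpace ℝ (Fin (2 * n))) 1) :=
    Pool.Agent.Helper206.BoxS.Sph.simplyConnected_sphere (by simp; omega)
  have h2 := Pool.Agent.H774R3.sc_ioi
  have h3 := Pool.Agent.H774R3.sc_prod (sphere (0 : EuclideanSpace ℝ (Fin (2 * n))) 1)
    (Set.Ioi (0 : ℝ))
  have h4 : SimplyConnectedSpace ({0}ᶜ : Set (EuclideanSpace ℝ (Fin (2 * n)))) :=
    (homeomorphUnitSphereProd (EuclideanSpace ℝ (Fin (2 * n)))).toHomotopyEquiv.simplyConnectedSpace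
  have hfr : finrank ℝ (Fin n → ℂ) = finrank ℝ (EuclideanSpace ℝ (Fin (2 * n))) := by
    rw [Module.finrank_pi_fintype]
    simp [Complex.finrank_real_complex, mul_comm]
  let e : (Fin n → ℂ) ≃L[ℝ] (EuclideanSpace ℝ (Fin (2 * n))) :=
    ContinuousLinearEquiv.ofFinrankEq hfr
  let e' : NZ n ≃ₜ ({0}ᶜ : Set (EuclideanSpace ℝ (Fin (2 * n)))) :=
    e.toHomeomorph.subtype (fun z => by simp)
  exact e'.toHomotopyEquiv.simplyConnectedSpace

/-- the square of the norm -/
def nn {n : ℕ} (z : Fin n → ℂ) : ℂ := ∑ k, z k * conj (z k)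

/-- the projection to the line of `z` -/
def prj {n : ℕ} (z : Fin n → ℂ) : Fin n → Fin n → ℂ := fun i j => z i * conj (z j) / nn z

theorem nn_ne {n : ℕ} {z : Fin n → ℂ} (hz : z ≠ 0) : nn z ≠ 0 := by
  have h1 : nn z = ((∑ k, ‖z k‖ ^ 2 : ℝ) : ℂ) := by
    unfold nn
    rw [Complex.ofReal_sum]
    refine Finset.sum_congr rfl fun k _ => ?_
    rw [Complex.mul_conj, Complex.normSq_eq_norm_sq]
  rw [h1]
  obtain ⟨k, hk⟩ := Function.ne_iff.1 hz
  have h2 : 0 < ∑ k, ‖z k‖ ^ 2 :=
    Finset.sum_pos' (fun i _ => by positivity) ⟨k, Finset.mem_univ k, by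
      have : z k ≠ 0 := hk
      positivity⟩
  exact_mod_cast h2.ne'

theorem conj_nn {n : ℕ} (z : Fin n → ℂ) : conj (nn z) = nn z := by
  unfold nn
  rw [map_sum]
  refine Finset.sum_congr rfl fun k _ => ?_
  rw [map_mul, Complex.conj_conj, mul_comm]

theorem nn_cont {n : ℕ} : Continuous (nn (n := n)) := by
  unfold nn
  fun_prop

theorem prj_mem {n : ℕ} {z : Fin n → ℂ} (hz : z ≠ 0) : prj z ∈ Pr n := by
  have hN := nn_ne hz
  refine ⟨fun i j => ?_, fun i j => ?_, ?_⟩
  · show z j * conj (z i) / nn z = conj (z i * conj (z j) / nn z)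
    rw [map_div₀, map_mul, Complex.conj_conj, conj_nn, mul_comm]
  · show ∑ k, (z i * conj (z k) / nn z) * (z k * conj (z j) / nn z) = z i * conj (z j) / nn z
    have h2 : ∀ k, (z i * conj (z k) / nn z) * (z k * conj (z j) / nn z) =
      (z i * conj (z j) / (nn z * nn z)) * (z k * conj (z k)) := fun k => by
        field_simp
    rw [Finset.sum_congr rfl fun k _ => h2 k, ← Finset.mul_sum]
    change _ * nn z = _
    field_simp
  · show ∑ i, z i * conj (z i) / nn z = 1
    rw [← Finset.sum_div]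
    exact div_self hN

theorem prj_cont {n : ℕ} : Continuous fun z : NZ n => prj z.1 := by
  unfold prj
  refine continuous_pi fun i => continuous_pi fun j => ?_
  have h : ∀ k, Continuous fun z : NZ n => z.1 k := fun k =>
    (continuous_apply k).comp continuous_subtype_val
  exact ((h i).mul (Complex.continuous_conj.comp (h j))).div
    (nn_cont.comp continuous_subtype_val) fun z => nn_ne z.2

theorem prj_smul {n : ℕ} (z : Fin n → ℂ) {c : ℂ} (hc : c ≠ 0) : prj (c • z) = prj z := by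
  have h1 : nn (c • z) = (c * conj c) * nn z := by
    unfold nn
    rw [Finset.mul_sum]
    refine Finset.sum_congr rfl fun k _ => ?_
    simp only [Pi.smul_apply, smul_eq_mul, map_mul]
    ring
  have hc' : conj c ≠ 0 := (map_ne_zero _).2 hc
  funext i j
  unfold prj
  rw [h1]
  simp only [Pi.smul_apply, smul_eq_mul, map_mul]
  rw [show c * z i * (conj c * conj (z j)) = (c * conj c) * (z i * conj (z j)) by ring]
  exact mul_div_mul_left _ _ (mul_ne_zero hc hc')

theorem prj_eq {n : ℕ} {z w : Fin n → ℂ} (hz : z ≠ 0) (hw : w ≠ 0) (h : prj z = prj w) :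
    ∃ c : ℂ, c ≠ 0 ∧ w = c • z := by
  have hN := nn_ne hz
  have hM := nn_ne hw
  obtain ⟨j, hj⟩ := Function.ne_iff.1 hz
  have hj' : z j ≠ 0 := hj
  have hcj : conj (z j) ≠ 0 := (map_ne_zero _).2 hj'
  have h1 : ∀ i, z i * conj (z j) / nn z = w i * conj (w j) / nn w := fun i =>
    congrFun (congrFun h i) j
  have hwj : conj (w j) ≠ 0 := by
    intro h0
    have h2 := h1 j
    rw [h0, mul_zero, zero_div] at h2
    exact (div_ne_zero (mul_ne_zero hj' hcj) hN) h2
  refine ⟨conj (z j) * nn w / (conj (w j) * nn z),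
    div_ne_zero (mul_ne_zero hcj hM) (mul_ne_zero hwj hN), ?_⟩
  funext i
  have h2 := h1 i
  rw [div_eq_div_iff hN hM] at h2
  simp only [Pi.smul_apply, smul_eq_mul]
  rw [div_mul_eq_mul_div, eq_div_iff (mul_ne_zero hwj hN)]
  linear_combination -h2

theorem rank_one {n : ℕ} {P : Fin n → Fin n → ℂ} (hP : P ∈ Pr n) (i j k l : Fin n) :
    P i j * P k l = P i l * P k j := by
  obtain ⟨v, -, rfl⟩ := vw_surj hP
  show (v i * conj (v j)) * (v k * conj (v l)) = (v i * conj (v l)) * (v k * conj (v j))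
  ring

theorem prj_col {n : ℕ} {P : Fin n → Fin n → ℂ} (hP : P ∈ Pr n) {j : Fin n} (hj : P j j ≠ 0) :
    prj (fun i => P i j) = P := by
  have h1 : nn (fun i => P i j) = P j j := by
    unfold nn
    rw [← hP.2.1 j j]
    refine Finset.sum_congr rfl fun k _ => ?_
    rw [mul_comm]
    congr 1
    exact (hP.1 k j).symm
  funext i k
  unfold prj
  rw [h1, div_eq_iff hj]
  have h2 : conj (P k j) = P j k := (hP.1 k j).symm
  simp only
  rw [h2]
  exact rank_one hP i j j k

theorem exists_diag {n : ℕ} {P : Fin n → Fin n → ℂ} (hP : P ∈ Pr n) : ∃ j, P j j ≠ 0 := by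
  by_contra h
  push Not at h
  have h3 := hP.2.2
  rw [Finset.sum_eq_zero fun j _ => h j] at h3
  exact zero_ne_one h3

theorem lift_sec {B E' : Type} [TopologicalSpace B] [TopologicalSpace E'] {P : E' → Prop}
    (e0 : Subtype P) (V : Set B) (s' : B → E') (hs : ContinuousOn s' V) (hP : ∀ c ∈ V, P (s' c)) :
    ∃ s : B → Subtype P, ContinuousOn s V ∧ ∀ c ∈ V, (s c : E') = s' c := by
  classical
  refine ⟨fun c => if h : P (s' c) then ⟨s' c, h⟩ else e0, ?_, ?_⟩
  · refine (Topology.IsInducing.continuousOn_iff (g := (Subtype.val : Subtype P → E')) ⟨rfl⟩).2 ?_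
    refine hs.congr fun c hc => ?_
    simp [hP c hc]
  · intro c hc
    simp [hP c hc]

/-- a path from `1` to `c` in `ℂ \ {0}` -/
theorem exists_arc (c : ℂ) (hc : c ≠ 0) : ∃ γ : C(unitInterval, ℂ), γ 0 = 1 ∧ γ 1 = c ∧
    ∀ t, γ t ≠ 0 := by
  refine ⟨⟨fun t => Complex.exp ((t : ℝ) * Complex.log c), by fun_prop⟩, by simp, ?_, fun t =>
    Complex.exp_ne_zero _⟩
  simp [Complex.exp_log hc]

theorem sc_pr (n : ℕ) (hn : 2 ≤ n) : SimplyConnectedSpace (Pr n) := by
  have := sc_nz n hn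
  have e0 : NZ n := ⟨fun _ => 1, fun h => one_ne_zero (congrFun h ⟨0, by omega⟩)⟩
  have hsec : ∀ b : Pr n, ∃ V : Set (Pr n), IsOpen V ∧ b ∈ V ∧ ∃ s : Pr n → NZ n,
      ContinuousOn s V ∧ ∀ c ∈ V, (⟨prj (s c).1, prj_mem (s c).2⟩ : Pr n) = c := by
    intro b
    obtain ⟨j, hj⟩ := exists_diag b.2
    have hc : Continuous fun c : Pr n => fun i => c.1 i j :=
      continuous_pi fun i => (continuous_apply j).comp ((continuous_apply i).comp
        continuous_subtype_val)
    obtain ⟨s, hs, hs2⟩ := lift_sec e0 {c : Pr n | c.1 j j ≠ 0} (fun c => fun i => c.1 i j)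
      hc.continuousOn (fun c hc h0 => hc (congrFun h0 j))
    refine ⟨{c : Pr n | c.1 j j ≠ 0}, isOpen_ne_fun ((continuous_apply j).comp hc)
      continuous_const, hj, s, hs, fun c hcV => Subtype.ext ?_⟩
    show prj (s c).1 = c.1
    rw [hs2 c hcV]
    exact prj_col c.2 hcV
  refine Pool.Agent.H774R3.simplyConnected_of_localSections
    (fun z : NZ n => (⟨prj z.1, prj_mem z.2⟩ : Pr n)) (prj_cont.subtype_mk _) ?_ ?_ hsec
  · intro b
    obtain ⟨V, -, hb, s, -, h⟩ := hsec b
    exact ⟨s b, h b hb⟩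
  · intro x y hxy
    obtain ⟨c, hc, hy⟩ := prj_eq x.2 y.2 (congrArg Subtype.val hxy)
    obtain ⟨γ, h0, h1, hγ⟩ := exists_arc c hc
    refine ⟨⟨⟨fun t => ⟨γ t • x.1, smul_ne_zero (hγ t) x.2⟩, ?_⟩, ?_, ?_⟩, ?_⟩
    · exact Continuous.subtype_mk (by fun_prop) _
    · exact Subtype.ext (by simp [h0])
    · exact Subtype.ext (by simp [h1, hy])
    · intro t
      exact Subtype.ext (prj_smul x.1 (hγ t))

/-- the vector `(u₀ a₀, u₀ a₁, u₁)` -/
def bw (a u : Fin 2 → ℂ) : Fin 3 → ℂ := ![u 0 * a 0, u 0 * a 1, u 1]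

theorem bw_cast (a u : Fin 2 → ℂ) (k : Fin 2) : bw a u k.castSucc = u 0 * a k := by
  fin_cases k <;> rfl

theorem bw_ne {a u : Fin 2 → ℂ} (ha : a ≠ 0) (hu : u ≠ 0) : bw a u ≠ 0 := by
  intro h
  have h0 : u 0 * a 0 = 0 := congrFun h 0
  have h1 : u 0 * a 1 = 0 := congrFun h 1
  have h2 : u 1 = 0 := congrFun h 2
  have h3 : u 0 ≠ 0 := by
    intro h3
    apply hu
    funext i
    fin_cases i
    · exact h3
    · exact h2
  apply ha
  funext i
  fin_cases i
  · exact (mul_eq_zero.1 h0).resolve_left h3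
  · exact (mul_eq_zero.1 h1).resolve_left h3

theorem bl_mem' {a u : Fin 2 → ℂ} (ha : a ≠ 0) (hu : u ≠ 0) : (prj (bw a u), prj a) ∈ Bl := by
  refine ⟨prj_mem (bw_ne ha hu), prj_mem ha, fun i j => ?_⟩
  have hN := nn_ne ha
  have hM := nn_ne (bw_ne ha hu)
  show ∑ k : Fin 2, (a i * conj (a k) / nn a) *
    (bw a u k.castSucc * conj (bw a u j) / nn (bw a u)) =
    bw a u i.castSucc * conj (bw a u j) / nn (bw a u)
  simp only [bw_cast]
  have h2 : ∀ k, (a i * conj (a k) / nn a) * (u 0 * a k * conj (bw a u j) / nn (bw a u)) =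
      (a i * u 0 * conj (bw a u j) / (nn a * nn (bw a u))) * (a k * conj (a k)) := fun k => by
    field_simp
  rw [Finset.sum_congr rfl fun k _ => h2 k, ← Finset.mul_sum]
  change _ * nn a = _
  field_simp

theorem bw_smul (a u : Fin 2 → ℂ) (c d : ℂ) (hc : c ≠ 0) :
    bw (c • a) ![d * u 0 / c, d * u 1] = d • bw a u := by
  funext i
  fin_cases i
  · show d * u 0 / c * (c * a 0) = d * (u 0 * a 0)
    field_simp
  · show d * u 0 / c * (c * a 1) = d * (u 0 * a 1)
    field_simp
  · rfl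

theorem bw_cont : Continuous fun x : (Fin 2 → ℂ) × (Fin 2 → ℂ) => bw x.1 x.2 := by
  unfold bw
  refine continuous_pi fun i => ?_
  fin_cases i
  · show Continuous fun x : (Fin 2 → ℂ) × (Fin 2 → ℂ) => x.2 0 * x.1 0
    fun_prop
  · show Continuous fun x : (Fin 2 → ℂ) × (Fin 2 → ℂ) => x.2 0 * x.1 1
    fun_prop
  · show Continuous fun x : (Fin 2 → ℂ) × (Fin 2 → ℂ) => x.2 1
    fun_prop

/-- the vector of the section -/
def us (p : (Fin 3 → Fin 3 → ℂ) × (Fin 2 → Fin 2 → ℂ)) (i : Fin 3) (j : Fin 2) : Fin 2 → ℂ :=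
  ![p.1 j.castSucc i / p.2 j j, p.1 2 i]

theorem bw_us {p : (Fin 3 → Fin 3 → ℂ) × (Fin 2 → Fin 2 → ℂ)} (hp : p ∈ Bl) {i : Fin 3}
    {j : Fin 2} (hj : p.2 j j ≠ 0) :
    bw (fun k => p.2 k j) (us p i j) = fun k => p.1 k i := by
  obtain ⟨h1, h2, h3⟩ := hp
  have key : ∀ k : Fin 2, p.1 j.castSucc i / p.2 j j * p.2 k j = p.1 k.castSucc i := by
    intro k
    rw [← h3 k i, ← h3 j i, Finset.sum_div, Finset.sum_mul]
    refine Finset.sum_congr rfl fun l _ => ?_
    have := rank_one h2 k j j l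
    field_simp
    linear_combination p.1 l.castSucc i * this
  funext k
  fin_cases k
  · exact key 0
  · exact key 1
  · rfl

theorem sc_bl : SimplyConnectedSpace Bl := by
  have := sc_nz 2 le_rfl
  have := Pool.Agent.H774R3.sc_prod (NZ 2) (NZ 2)
  have e0 : NZ 2 := ⟨fun _ => 1, fun h => one_ne_zero (congrFun h 0)⟩
  have hsec : ∀ b : Bl, ∃ V : Set Bl, IsOpen V ∧ b ∈ V ∧ ∃ s : Bl → NZ 2 × NZ 2,
      ContinuousOn s V ∧ ∀ c ∈ V, (⟨(prj (bw (s c).1.1 (s c).2.1), prj (s c).1.1),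
        bl_mem' (s c).1.2 (s c).2.2⟩ : Bl) = c := by
    intro b
    obtain ⟨i, hi⟩ := exists_diag b.2.1
    obtain ⟨j, hj⟩ := exists_diag b.2.2.1
    have hcP : ∀ k l, Continuous fun c : Bl => c.1.1 k l := fun k l => by
      have h : Continuous fun c : Bl => c.1.1 := continuous_fst.comp continuous_subtype_val
      exact (continuous_apply l).comp ((continuous_apply k).comp h)
    have hcQ : ∀ k l, Continuous fun c : Bl => c.1.2 k l := fun k l => by
      have h : Continuous fun c : Bl => c.1.2 := continuous_snd.comp continuous_subtype_val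
      exact (continuous_apply l).comp ((continuous_apply k).comp h)
    obtain ⟨V, hV⟩ : ∃ V : Set Bl, V = {c : Bl | c.1.1 i i ≠ 0 ∧ c.1.2 j j ≠ 0} := ⟨_, rfl⟩
    have hus : ContinuousOn (fun c : Bl => us c.1 i j) V := by
      refine continuousOn_pi.2 fun k => ?_
      fin_cases k
      · show ContinuousOn (fun c : Bl => c.1.1 j.castSucc i / c.1.2 j j) V
        exact (hcP _ _).continuousOn.div (hcQ _ _).continuousOn fun c hc => by
          rw [hV] at hc
          exact hc.2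
      · exact (hcP 2 i).continuousOn
    obtain ⟨s1, hs1, hs1'⟩ := lift_sec e0 V (fun c : Bl => fun k => c.1.2 k j)
      (continuous_pi fun k => hcQ k j).continuousOn (fun c hc h0 => by
        rw [hV] at hc
        exact hc.2 (congrFun h0 j))
    obtain ⟨s2, hs2, hs2'⟩ := lift_sec e0 V (fun c : Bl => us c.1 i j) hus (fun c hc h0 => by
        rw [hV] at hc
        have h1 := congrFun (bw_us c.2 (i := i) hc.2) i
        rw [h0] at h1
        apply hc.1
        rw [← h1]
        unfold bw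
        fin_cases i <;> simp)
    refine ⟨V, ?_, ?_, fun c => (s1 c, s2 c), hs1.prodMk hs2, fun c hc => Subtype.ext ?_⟩
    · rw [hV]
      exact (isOpen_ne_fun (hcP i i) continuous_const).inter
        (isOpen_ne_fun (hcQ j j) continuous_const)
    · rw [hV]
      exact ⟨hi, hj⟩
    · have hc' := hc
      rw [hV] at hc'
      show (prj (bw (s1 c).1 (s2 c).1), prj (s1 c).1) = c.1
      rw [hs1' c hc, hs2' c hc, bw_us c.2 hc'.2, prj_col c.2.1 hc'.1, prj_col c.2.2.1 hc'.2]
  refine Pool.Agent.H774R3.simplyConnected_of_localSections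
    (fun z : NZ 2 × NZ 2 => (⟨(prj (bw z.1.1 z.2.1), prj z.1.1), bl_mem' z.1.2 z.2.2⟩ : Bl))
    ?_ ?_ ?_ hsec
  · refine Continuous.subtype_mk ?_ _
    refine Continuous.prodMk ?_ (prj_cont.comp continuous_fst)
    exact prj_cont.comp (Continuous.subtype_mk (bw_cont.comp
      ((continuous_subtype_val.comp continuous_fst).prodMk
        (continuous_subtype_val.comp continuous_snd))) fun z => bw_ne z.1.2 z.2.2)
  · intro b
    obtain ⟨V, -, hb, s, -, h⟩ := hsec b
    exact ⟨s b, h b hb⟩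
  · rintro ⟨⟨a, ha⟩, ⟨u, hu⟩⟩ ⟨⟨a', ha'⟩, ⟨u', hu'⟩⟩ hxy
    have e1 : prj (bw a u) = prj (bw a' u') := congrArg Prod.fst (congrArg Subtype.val hxy)
    have e2 : prj a = prj a' := congrArg Prod.snd (congrArg Subtype.val hxy)
    obtain ⟨c, hc, rfl⟩ := prj_eq ha ha' e2
    obtain ⟨d, hd, hd'⟩ := prj_eq (bw_ne ha hu) (bw_ne ha' hu') e1
    have hu2 : u' = ![d * u 0 / c, d * u 1] := by
      obtain ⟨k, hk⟩ := Function.ne_iff.1 ha
      have hk' : a k ≠ 0 := hk
      have h1 := congrFun hd' k.castSucc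
      rw [bw_cast] at h1
      simp only [Pi.smul_apply, smul_eq_mul, bw_cast] at h1
      have h2 : u' 1 = d * u 1 := congrFun hd' 2
      funext l
      fin_cases l
      · show u' 0 = d * u 0 / c
        rw [eq_div_iff hc]
        have : (u' 0 * c) * a k = (d * u 0) * a k := by linear_combination h1
        exact mul_right_cancel₀ hk' this
      · exact h2
    subst hu2
    obtain ⟨γ, h0, h1, hγ⟩ := exists_arc c hc
    obtain ⟨η, g0, g1, hη⟩ := exists_arc d hd
    have hw : ∀ t, (![η t * u 0 / γ t, η t * u 1] : Fin 2 → ℂ) ≠ 0 := by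
      intro t h
      apply hu
      have h3 : η t * u 0 / γ t = 0 := congrFun h 0
      have h4 : η t * u 1 = 0 := congrFun h 1
      funext l
      fin_cases l
      · exact (mul_eq_zero.1 ((div_eq_zero_iff.1 h3).resolve_right (hγ t))).resolve_left (hη t)
      · exact (mul_eq_zero.1 h4).resolve_left (hη t)
    refine ⟨⟨⟨fun t => (⟨γ t • a, smul_ne_zero (hγ t) ha⟩, ⟨![η t * u 0 / γ t, η t * u 1], hw t⟩),
      ?_⟩, ?_, ?_⟩, ?_⟩
    · refine Continuous.prodMk (Continuous.subtype_mk (by fun_prop) _)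
        (Continuous.subtype_mk (continuous_pi fun l => ?_) _)
      fin_cases l
      · exact ((η.continuous.mul continuous_const).div γ.continuous hγ)
      · exact (η.continuous.mul continuous_const)
    · refine Prod.ext (Subtype.ext (by simp [h0])) (Subtype.ext ?_)
      funext l
      fin_cases l <;> simp [h0, g0]
    · refine Prod.ext (Subtype.ext (by simp [h1])) (Subtype.ext ?_)
      simp [h1, g1]
    · intro t
      refine Subtype.ext ?_
      show (prj (bw (γ t • a) ![η t * u 0 / γ t, η t * u 1]), prj (γ t • a)) =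
        (prj (bw a u), prj a)
      rw [bw_smul a u _ _ (hγ t), prj_smul _ (hη t), prj_smul _ (hγ t)]

theorem sc_s2s2 : SimplyConnectedSpace (sphere (0 : EuclideanSpace ℝ (Fin 3)) 1 ×
    sphere (0 : EuclideanSpace ℝ (Fin 3)) 1) := by
  have h1 : SimplyConnectedSpace (sphere (0 : EuclideanSpace ℝ (Fin 3)) 1) :=
    Pool.Agent.Helper206.BoxS.Sph.simplyConnected_sphere (by simp)
  exact Pool.Agent.H774R3.sc_prod _ _

end Pool.Agent.L7h45.NF

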