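import Pool.Agent.L7h20.NF.Corey
import Pool.Agent.L7h97.NF.Xfer
import Pool.Agent.L7h97.NF.Propy
import Pool.Agent.L7h8.NF.BUMP
import Pool.Agent.L7h8.NF.BXJ
import Pool.Agent.L7h8.NF.DET3
import Pool.Agent.L7h8.NF.FINY
import Pool.Agent.L7h38.NF.Max
import Pool.Agent.L7h38.NF.Prop
import Pool.Agent.L7h38.NF.Sumy
import Pool.Agent.L7h21.NF.Coney
import Pool.Agent.L7h21.NF.Indy
import Pool.Agent.L7h13.NF.Leaf2
import Pool.Agent.L7h81.NF.Circ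
import Pool.Agent.L7h81.NF.Oned
import Pool.Agent.L7h82.NF.BoxN
import Pool.Agent.L7h82.NF.Det
import Pool.Agent.L7h58.NF.Cone
import Pool.Agent.L7h58.NF.Ind
import Pool.Agent.L7h58.NF.Reg
import Pool.Agent.L7h45.NF.Closed
import Pool.Agent.L7h45.NF.SC

/-!
# Project NF: assembly
-/

set_option autoImplicit false

namespace Pool.Agent.L7h45.NF

open Pool.Agent.L7h20.NF

theorem s_CONE' : S_CONE :=
  L7h58.NF.s_CONE L7h82.NF.s_DET1 L7h58.NF.s_REG (L7h58.NF.s_IND L7h82.NF.s_DET1 L7h58.NF.s_REG)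

theorem s_CONEY' : S_CONEY :=
  L7h21.NF.s_CONEY L7h82.NF.s_DET1 (L7h21.NF.s_INDY L7h82.NF.s_DET1)

theorem s_BXJ' : S_BXJ := L7h8.NF.s_BXJ L7h82.NF.s_DET1

theorem s_PROP' : S_PROP := L7h38.NF.s_PROP L7h8.NF.s_BUMP L7h81.NF.s_ONED s_BXJ' s_CONE'

theorem s_COREY : S_COREY := by
  have h1 : S_XFER := L7h97.NF.s_XFER L7h82.NF.s_DET1 s_CONE' s_CONEY'
  have h2 : S_PROPY := L7h97.NF.s_PROPY s_PROP' L7h82.NF.s_DET1 s_CONE' s_CONEY'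
  have h3 : S_LEAF2 := L7h13.NF.s_LEAF2 L7h82.NF.s_BOX s_BXJ' L7h58.NF.s_REG
  have h4 : S_CIRC := L7h81.NF.s_CIRC (L7h38.NF.s_MAX s_PROP' s_BXJ' s_CONE') L7h82.NF.s_BOX
  have h5 : S_SUMY := L7h38.NF.s_SUMY s_CONEY'
  have h6 : S_FINY := L7h8.NF.s_FINY (L7h8.NF.s_DET3 L7h82.NF.s_DET1)
  exact corey h1 h2 h3 h4 h5 h6 s_CONEY'

theorem closed : S_CLOSED := s_CLOSED s_COREY

end Pool.Agent.L7h45.NF

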