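import Pool.Agent.L7h45.NF.LocRet

/-!
# Project NF: factorization through an open submanifold of the target
-/

set_option autoImplicit false
set_option linter.unusedSectionVars false

open Set Filter Topology Metric Function
open scoped Manifold ContDiff

noncomputable section

namespace Pool.Agent.L7h45.NF

open Pool.Agent.Y522 Pool.Agent.L7h20.NF Pool.Agent.Y170.NA

section

variable {m : ℕ} {X Y : Type} [TopologicalSpace X] [T2Space X] [ChartedSpace (E (m + 1)) X]
  [IsManifold (𝓡 (m + 1)) ∞ X] [TopologicalSpace Y] [T2Space Y] [ChartedSpace (E (m + 1)) Y]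
  [IsManifold (𝓡 (m + 1)) ∞ Y]

/-- local diffeomorphisms to an open submanifold -/
theorem ld_cod (Q : TopologicalSpace.Opens Y) {h : X → Y} {b : X → Q} {x : X}
    (hb : ∀ x, (b x : Y) = h x) (hh : LD (m + 1) h x) : LD (m + 1) b x := by
  obtain ⟨p, hp1, hp2, hp3, hp4⟩ := (LD_val (n := m + 1) Q (b x)).exists_inverse
  rw [hb x] at hp1 hp4
  refine (LD.comp_fun hp1 hh).congr ?_
  filter_upwards [hh.continuousAt.tendsto.eventually hp4] with q h3
  exact Subtype.ext ((hb q).trans h3.symm)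

theorem ld_cod_iff (Q : TopologicalSpace.Opens Y) {h : X → Y} {b : X → Q} {x : X}
    (hb : ∀ x, (b x : Y) = h x) : LD (m + 1) b x ↔ LD (m + 1) h x := by
  constructor
  · intro h1
    exact (LD.comp_fun (LD_val Q (b x)) h1).congr (Eventually.of_forall fun y => (hb y).symm)
  · exact ld_cod Q hb

theorem setting_cod (Q : TopologicalSpace.Opens Y) {h : X → Y} {b : X → Q}
    (hb : ∀ x, (b x : Y) = h x) (hs : SettingY (m := m) h) : SettingY (m := m) b := by
  refine ⟨fun x => smooth_lift Q hs.smooth.contMDiffAt (Eventually.of_forall hb), ?_, ?_⟩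
  · refine hs.dense.mono fun x hx => ?_
    exact (ld_cod_iff Q hb).2 hx
  · intro x
    obtain ⟨A, B, z, h1, h2⟩ := hs.sign x
    refine ⟨A, fun q => B q, z, h1, h2.ld, ?_, ?_⟩
    · have h3 := h2.lb
      rw [← hb] at h3
      exact LD.comp_fun h3 (LD_val Q _)
    · have h3 := h2.nn
      unfold dY at h3 ⊢
      simpa only [hb] using h3

theorem rk_cod (Q : TopologicalSpace.Opens Y) {h : X → Y} {b : X → Q} {x : X}
    (hb : ∀ x, (b x : Y) = h x) (hs : SettingY (m := m) h) (hr : RkY (m := m) h x) :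
    RkY (m := m) b x := by
  have hbs := (setting_cod Q hb hs).smooth
  have e0 : h = fun x => (Subtype.val : Q → Y) (b x) := funext fun x => (hb x).symm
  have h7 : HasMFDerivAt (𝓡 (m + 1)) (𝓡 (m + 1)) (fun x => (Subtype.val : Q → Y) (b x)) x
      ((mfderiv (𝓡 (m + 1)) (𝓡 (m + 1)) (Subtype.val : Q → Y) (b x)).comp
        (mfderiv (𝓡 (m + 1)) (𝓡 (m + 1)) b x)) :=
    HasMFDerivAt.comp (g := (Subtype.val : Q → Y)) (f := b) x
      (LD_val (n := m + 1) Q (b x)).mdifferentiableAt.hasMFDerivAt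
      (hbs.mdifferentiableAt (by simp)).hasMFDerivAt
  unfold RkY at hr ⊢
  rw [e0, h7.mfderiv] at hr
  refine hr.trans ?_
  let Db : E (m + 1) →L[ℝ] E (m + 1) := mfderiv (𝓡 (m + 1)) (𝓡 (m + 1)) b x
  let Dv : E (m + 1) →L[ℝ] E (m + 1) :=
    mfderiv (𝓡 (m + 1)) (𝓡 (m + 1)) (Subtype.val : Q → Y) (b x)
  have e2 : LinearMap.range (Dv ∘L Db).toLinearMap =
      (LinearMap.range Db.toLinearMap).map Dv.toLinearMap := by
    change LinearMap.range (Dv.toLinearMap ∘ₗ Db.toLinearMap) = _
    exact LinearMap.range_comp _ _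
  have e3 : Module.finrank ℝ (LinearMap.range (Dv ∘L Db).toLinearMap) ≤
      Module.finrank ℝ (LinearMap.range Db.toLinearMap) := by
    rw [e2]
    exact Submodule.finrank_map_le _ _
  exact e3

end

end Pool.Agent.L7h45.NF
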