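import Pool.Agent.L7h97.NF.Propy
import Pool.Agent.L7h45.NF.Closed
import Pool.Agent.L7h20.NF.Closed

/-!
# Project NF: local retractions

A neighbourhood of a compact subset of a smooth manifold is a smooth retract of an open subset of a
Euclidean space.
-/

set_option autoImplicit false
set_option linter.unusedSectionVars false

open Set Filter Topology Metric Function
open scoped Manifold ContDiff

noncomputable section

namespace Pool.Agent.L7h45.NF

open Pool.Agent.Y522 Pool.Agent.L7h20.NF Pool.Agent.Y170.NA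

variable {m : ℕ} {Y : Type} [TopologicalSpace Y] [T2Space Y] [ChartedSpace (E (m + 1)) Y]
  [IsManifold (𝓡 (m + 1)) ∞ Y]

/-- an immersion which is injective on a given compact set -/
theorem exists_imm (A : Set Y) (hA : IsCompact A) :
    ∃ (a : ℕ) (ι : Y → E a), ContMDiff (𝓡 (m + 1)) (𝓡 a) ∞ ι ∧ InjOn ι A ∧
      ∀ x ∈ A, Injective (mfderiv (𝓡 (m + 1)) (𝓡 a) ι x) := by
  classical
  have f : ∀ c : Y, SmoothBumpFunction (𝓡 (m + 1)) c := fun c =>
    Classical.choice (SmoothBumpFunction.nhdsWithin_range_basis.nonempty)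
  obtain ⟨t, htA, ht⟩ := hA.elim_nhds_subcover (fun c => {y | ∀ᶠ z in 𝓝 y, f c z = 1})
    (fun c _ => (f c).eventuallyEq_one.eventually_nhds)
  let e : Y → (t → E (m + 1) × ℝ) := fun x i =>
    (f i x • extChartAt (𝓡 (m + 1)) (i : Y) x, f i x)
  have he : ContMDiff (𝓡 (m + 1)) 𝓘(ℝ, t → E (m + 1) × ℝ) ∞ e :=
    contMDiff_pi_space.2 fun i =>
      ((f i).contMDiff_smul contMDiffOn_extChartAt).prodMk_space (f i).contMDiff
  let a := Module.finrank ℝ (t → E (m + 1) × ℝ)
  let eEF : (t → E (m + 1) × ℝ) ≃L[ℝ] E a :=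
    ContinuousLinearEquiv.ofFinrankEq finrank_euclideanSpace_fin.symm
  have hι : ContMDiff (𝓡 (m + 1)) (𝓡 a) ∞ (fun x => eEF (e x)) :=
    eEF.contDiff.contMDiff.comp he
  refine ⟨a, fun x => eEF (e x), hι, ?_, ?_⟩
  · intro x hx y _ h
    have h1 : e x = e y := eEF.injective h
    obtain ⟨c, hc, hcx⟩ := mem_iUnion₂.1 (ht hx)
    have hcx' : ∀ᶠ z in 𝓝 x, f c z = 1 := hcx
    have h2 : f c x = 1 := hcx'.self_of_nhds
    have h3 := congrFun h1 ⟨c, hc⟩
    have h4 : f c x = f c y := congrArg Prod.snd h3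
    have h5 : f c x • extChartAt (𝓡 (m + 1)) c x = f c y • extChartAt (𝓡 (m + 1)) c y :=
      congrArg Prod.fst h3
    rw [← h4, h2, one_smul, one_smul] at h5
    have hs : ∀ z, f c z = 1 → z ∈ (extChartAt (𝓡 (m + 1)) c).source := by
      intro z hz
      rw [extChartAt_source]
      apply (f c).support_subset_source
      rw [mem_support, hz]
      exact one_ne_zero
    exact (extChartAt (𝓡 (m + 1)) c).injOn (hs x h2) (hs y (h4 ▸ h2)) h5
  · intro x hx
    obtain ⟨c, hc, hcx⟩ := mem_iUnion₂.1 (ht hx)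
    have hcx' : ∀ᶠ z in 𝓝 x, f c z = 1 := hcx
    have h2 : f c x = 1 := hcx'.self_of_nhds
    have hs : x ∈ (chartAt (E (m + 1)) c).source := by
      apply (f c).support_subset_source
      rw [mem_support, h2]
      exact one_ne_zero
    let L : E a →L[ℝ] E (m + 1) := ((ContinuousLinearMap.fst ℝ (E (m + 1)) ℝ).comp
      (ContinuousLinearMap.proj (R := ℝ) (φ := fun _ : t => E (m + 1) × ℝ) ⟨c, hc⟩)).comp
      (eEF.symm : E a →L[ℝ] (t → E (m + 1) × ℝ))
    have hL : (fun y => L (eEF (e y))) =ᶠ[𝓝 x] chartAt (E (m + 1)) c := by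
      filter_upwards [hcx'] with y hy
      have h4 : L (eEF (e y)) = (e y ⟨c, hc⟩).1 := by
        simp [L]
      rw [h4]
      show f c y • extChartAt (𝓡 (m + 1)) c y = _
      rw [hy, one_smul]
      rfl
    have hLD : LD (m + 1) (fun y => L (eEF (e y))) x :=
      (Pool.Agent.Y66.CM.LD_chart c x hs).congr hL
    have h6 := hLD.mfderiv_injective
    have h7 : HasMFDerivAt (𝓡 (m + 1)) (𝓡 (m + 1)) (fun y => L (eEF (e y))) x
        (L.comp (mfderiv (𝓡 (m + 1)) (𝓡 a) (fun y => eEF (e y)) x)) :=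
      HasMFDerivAt.comp (g := L) (f := fun y => eEF (e y)) x L.hasMFDerivAt
        (hι.mdifferentiableAt (by simp)).hasMFDerivAt
    rw [h7.mfderiv] at h6
    intro u v huv
    exact h6 (congrArg L huv)

/-- maps to an open submanifold -/
theorem smooth_lift {a : ℕ} {P : Type} [TopologicalSpace P] [ChartedSpace (E a) P]
    (U : TopologicalSpace.Opens Y) {h : P → Y} {b : P → U} {p₀ : P}
    (hh : ContMDiffAt (𝓡 a) (𝓡 (m + 1)) ∞ h p₀) (hb : ∀ᶠ p in 𝓝 p₀, (b p : Y) = h p) :
    ContMDiffAt (𝓡 a) (𝓡 (m + 1)) ∞ b p₀ := by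
  obtain ⟨p, hp1, hp2, hp3, hp4⟩ := (LD_val (n := m + 1) U (b p₀)).exists_inverse
  have h0 : (b p₀ : Y) = h p₀ := hb.self_of_nhds
  rw [h0] at hp1 hp4
  have h1 : ContMDiffAt (𝓡 a) (𝓡 (m + 1)) ∞ (fun q => p (h q)) p₀ :=
    hp1.contMDiffAt.comp p₀ hh
  refine h1.congr_of_eventuallyEq ?_
  filter_upwards [hb, hh.continuousAt.tendsto.eventually hp4] with q h2 h3
  exact Subtype.ext (h2.trans h3.symm)

/-- a neighbourhood of a compact set is a smooth retract of an open subset of some `E a` -/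
theorem exists_loc_ret (K : Set Y) (hK : IsCompact K) (hne : K.Nonempty) :
    ∃ (Q : TopologicalSpace.Opens Y) (a : ℕ) (κ : Q → E a) (ρ : E a → Q) (U : Set (E a)),
      K ⊆ Q ∧ Ret (m := m) κ ρ U := by
  classical
  have hlc : LocallyCompactSpace Y := ChartedSpace.locallyCompactSpace (E (m + 1)) Y
  obtain ⟨A, hA, hKA⟩ := exists_compact_superset hK
  obtain ⟨L, hL, hKL, hLA⟩ := exists_compact_between hK isOpen_interior hKA
  obtain ⟨a, ι, hι, hinj, himm⟩ := exists_imm (m := m) A hA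
  let Q1 : TopologicalSpace.Opens Y := ⟨interior A, isOpen_interior⟩
  let ι1 : Q1 → E a := fun x => ι x
  have hs : Pool.Agent.L7h17.AH.SEmb (n := m + 1) ι1 := by
    refine ⟨hι.comp contMDiff_subtype_val, ?_, ?_⟩
    · intro x y hxy
      exact Subtype.ext (hinj (interior_subset x.2) (interior_subset y.2) hxy)
    · intro x
      have hv := LD_val (n := m + 1) Q1 x
      have h7 : HasMFDerivAt (𝓡 (m + 1)) (𝓡 a) ι1 x
          ((mfderiv (𝓡 (m + 1)) (𝓡 a) ι (x : Y)).comp
            (mfderiv (𝓡 (m + 1)) (𝓡 (m + 1)) (Subtype.val : Q1 → Y) x)) :=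
        HasMFDerivAt.comp (g := ι) (f := (Subtype.val : Q1 → Y)) x
          (hι.mdifferentiableAt (by simp)).hasMFDerivAt hv.mdifferentiableAt.hasMFDerivAt
      rw [h7.mfderiv]
      exact (himm _ (interior_subset x.2)).comp hv.mfderiv_injective
  have hind : IsInducing ι1 := by
    have : CompactSpace A := isCompact_iff_compactSpace.1 hA
    have h1 : IsClosedEmbedding (fun x : A => ι x) :=
      (hι.continuous.comp continuous_subtype_val).isClosedEmbedding
        (fun x y h => Subtype.ext (hinj x.2 y.2 h))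
    have h2 : IsInducing (Set.inclusion (interior_subset : interior A ⊆ A)) :=
      (IsEmbedding.inclusion _).isInducing
    exact h1.isInducing.comp h2
  obtain ⟨k, hk⟩ := hne
  have : Nonempty Q1 := ⟨⟨k, hKA hk⟩⟩
  have hK' : IsCompact {x : Q1 | (x : Y) ∈ L} := by
    rw [IsInducing.subtypeVal.isCompact_iff]
    have this : ((fun x : Q1 => (x : Y)) '' {x : Q1 | (x : Y) ∈ L}) = L := by
      ext y
      constructor
      · rintro ⟨x, hx, rfl⟩
        exact hx
      · intro hy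
        exact ⟨⟨y, hLA hy⟩, hy, rfl⟩
    exact this.symm ▸ hL
  obtain ⟨U, ρ, hU, hUi, hρ, hfix⟩ := Pool.Agent.L7h17.AH.good_compact hs hind hK'
  let Q : TopologicalSpace.Opens Y := ⟨interior L, isOpen_interior⟩
  have hV : IsOpen {y : Q1 | (y : Y) ∈ interior L} := isOpen_interior.preimage continuous_subtype_val
  have hW : IsOpen (U ∩ ρ ⁻¹' {y : Q1 | (y : Y) ∈ interior L}) :=
    hρ.continuousOn.isOpen_inter_preimage hU hV
  let ρ' : E a → Q := fun u => if h : ((ρ u : Q1) : Y) ∈ interior L then ⟨ρ u, h⟩ else ⟨k, hKL hk⟩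
  have hfix' : ∀ y : Q, ι y ∈ U ∧ ρ (ι y) = (⟨y, hLA (interior_subset y.2)⟩ : Q1) := by
    intro y
    have h0 : (y : Y) ∈ L := interior_subset y.2
    have h1 : ι1 ⟨y, hLA h0⟩ ∈ U := hUi ⟨_, h0, rfl⟩
    exact ⟨h1, hfix _ h1⟩
  refine ⟨Q, a, fun y => ι y, ρ', _, hKL, hW, ?_, hι.comp contMDiff_subtype_val, ?_, ?_⟩
  · intro y
    refine ⟨(hfix' y).1, ?_⟩
    rw [mem_preimage, (hfix' y).2]
    exact y.2
  · intro u hu
    have h1 : ContMDiffAt (𝓡 a) (𝓡 (m + 1)) ∞ (fun u => ((ρ u : Q1) : Y)) u :=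
      (contMDiff_subtype_val (n := ∞)).contMDiffAt.comp u
        ((hρ u hu.1).contMDiffAt (hU.mem_nhds hu.1))
    refine smooth_lift Q h1 ?_
    filter_upwards [hW.mem_nhds hu] with p hp
    have h2 : ((ρ p : Q1) : Y) ∈ interior L := hp.2
    show ((ρ' p : Q) : Y) = ((ρ p : Q1) : Y)
    simp only [ρ', dif_pos h2]
  · intro y
    have h2 : ((ρ (ι y) : Q1) : Y) ∈ interior L := by
      rw [(hfix' y).2]
      exact y.2
    apply Subtype.ext
    show ((ρ' (ι y) : Q) : Y) = y
    simp only [ρ', dif_pos h2]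
    rw [(hfix' y).2]

end Pool.Agent.L7h45.NF
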