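import Pool.Agent.L7h45.NF.Fact

/-!
# Project NF: gluing into a topological manifold
-/

set_option autoImplicit false
set_option linter.unusedSectionVars false

open Set Filter Topology Metric Function
open scoped Manifold ContDiff unitInterval

noncomputable section

namespace Pool.Agent.L7h45.NF

open Pool.Agent.Y522 Pool.Agent.L7h20.NF Pool.Agent.Y170.NA

theorem lh_congr {M N : Type} [TopologicalSpace M] [TopologicalSpace N] {f F : M → N} {s : Set M}
    (hs : IsOpen s) (hf : IsLocalHomeomorphOn f s) (h : ∀ x ∈ s, F x = f x) :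
    IsLocalHomeomorphOn F s := by
  refine IsLocalHomeomorphOn.mk F s fun x hx => ?_
  obtain ⟨e, he, rfl⟩ := hf x hx
  refine ⟨e.restrOpen s hs, ?_, ?_⟩
  · rw [OpenPartialHomeomorph.restrOpen_source]
    exact ⟨he, hx⟩
  · intro y hy
    rw [OpenPartialHomeomorph.restrOpen_source] at hy
    exact h y hy.2

theorem glue_top {m a : ℕ} {M N X Q : Type} [TopologicalSpace M] [T2Space M] [TopologicalSpace N]
    [TopologicalSpace X] [ChartedSpace (E (m + 1)) X] [Nonempty X]
    [TopologicalSpace Q] [ChartedSpace (E (m + 1)) Q]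
    {κ : Q → E a} {ρ : E a → Q} {U : Set (E a)} (hR : Ret (m := m) κ ρ U)
    {i : X → M} (hi : IsOpenEmbedding i) {j : Q → N} (hj : IsOpenEmbedding j) (f : C(M, N))
    {g : X → Q} (hg : Continuous g) (hfg : ∀ x, f (i x) = j (g x)) {C : Set X} (hC : IsCompact C)
    (hCf : IsLocalHomeomorphOn f (i '' C)ᶜ) {G : X → Q} (hG : ∀ x, LD (m + 1) G x)
    (hGC : ∀ x, x ∉ C → G x = g x)
    (hseg : ∀ x ∈ C, ∀ t : ℝ, 0 ≤ t → t ≤ 1 → (1 - t) • κ (g x) + t • κ (G x) ∈ U) :
    ∃ F : C(M, N), IsLocalHomeomorph F ∧ f.Homotopic F ∧ (∀ x, F (i x) = j (G x)) ∧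
      ∀ z, z ∉ i '' C → F z = f z := by
  classical
  have hGc : Continuous G := continuous_iff_continuousAt.2 fun x => LD.continuousAt (hG x)
  have hκ : Continuous κ := hR.smk.continuous
  let e := hi.toOpenPartialHomeomorph i
  let r : M → X := e.symm
  have hr : ∀ x, r (i x) = x := fun x => hi.toOpenPartialHomeomorph_left_inv (f := i)
  have hrc : ContinuousOn r (range i) := by
    have h1 := e.continuousOn_symm
    have h2 : e.target = range i := hi.toOpenPartialHomeomorph_target
    rwa [h2] at h1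
  have hio : IsOpen (range i) := hi.isOpen_range
  have hCo : IsOpen (i '' C)ᶜ := (hC.image hi.continuous).isClosed.isOpen_compl
  have hρ : ContinuousOn ρ U := fun u hu => (hR.smr u hu).continuousAt.continuousWithinAt
  -- all segments
  have hseg' : ∀ (x : X) (t : ℝ), 0 ≤ t → t ≤ 1 → (1 - t) • κ (g x) + t • κ (G x) ∈ U := by
    intro x t h0 h1
    by_cases hx : x ∈ C
    · exact hseg x hx t h0 h1
    · rw [hGC x hx, ← add_smul, sub_add_cancel, one_smul]
      exact hR.mem _
  let H : I × M → N := fun p => if p.2 ∈ range i then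
    j (ρ ((1 - (p.1 : ℝ)) • κ (g (r p.2)) + (p.1 : ℝ) • κ (G (r p.2)))) else f p.2
  have H1 : ∀ (t : I) (x : X), H (t, i x) =
      j (ρ ((1 - (t : ℝ)) • κ (g x) + (t : ℝ) • κ (G x))) := by
    intro t x
    simp only [H, if_pos (mem_range_self x), hr]
  have H2 : ∀ (t : I) (z : M), z ∉ i '' C → H (t, z) = f z := by
    intro t z hz
    by_cases h : z ∈ range i
    · obtain ⟨x, rfl⟩ := h
      have hx : x ∉ C := fun hx => hz ⟨x, hx, rfl⟩
      rw [H1, hGC x hx, ← add_smul, sub_add_cancel, one_smul, hR.ret, hfg]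
    · simp only [H, if_neg h]
  have Hc : Continuous H := by
    rw [continuous_iff_continuousAt]
    rintro ⟨t, z⟩
    by_cases h : z ∈ range i
    · have h1 : (univ ×ˢ range i : Set (I × M)) ∈ 𝓝 (t, z) :=
        (isOpen_univ.prod hio).mem_nhds ⟨mem_univ _, h⟩
      have h2 : H =ᶠ[𝓝 (t, z)] fun p =>
          j (ρ ((1 - (p.1 : ℝ)) • κ (g (r p.2)) + (p.1 : ℝ) • κ (G (r p.2)))) := by
        filter_upwards [h1] with p hp
        simp only [H, if_pos hp.2]
      refine ContinuousAt.congr ?_ h2.symm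
      have h3 : ContinuousAt (fun p : I × M => r p.2) (t, z) :=
        ContinuousAt.comp (f := fun p : I × M => p.2) (g := r) (x := (t, z))
          (hrc.continuousAt (hio.mem_nhds h)) continuousAt_snd
      have h4 : ContinuousAt (fun p : I × M => κ (g (r p.2))) (t, z) :=
        (hκ.comp hg).continuousAt.comp h3
      have h5 : ContinuousAt (fun p : I × M => κ (G (r p.2))) (t, z) :=
        (hκ.comp hGc).continuousAt.comp h3
      have h6 : ContinuousAt (fun p : I × M => (p.1 : ℝ)) (t, z) :=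
        (continuous_subtype_val.comp continuous_fst).continuousAt
      have h7 : ContinuousAt (fun p : I × M =>
          (1 - (p.1 : ℝ)) • κ (g (r p.2)) + (p.1 : ℝ) • κ (G (r p.2))) (t, z) :=
        ((continuousAt_const.sub h6).smul h4).add (h6.smul h5)
      have h8 : (1 - (t : ℝ)) • κ (g (r z)) + (t : ℝ) • κ (G (r z)) ∈ U :=
        hseg' (r z) t t.2.1 t.2.2
      have h9 : ContinuousAt (fun p : I × M => ρ
          ((1 - (p.1 : ℝ)) • κ (g (r p.2)) + (p.1 : ℝ) • κ (G (r p.2)))) (t, z) :=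
        ContinuousAt.comp (g := ρ) (f := fun p : I × M =>
          (1 - (p.1 : ℝ)) • κ (g (r p.2)) + (p.1 : ℝ) • κ (G (r p.2))) (x := (t, z))
          (hρ.continuousAt (hR.op.mem_nhds h8)) h7
      exact hj.continuous.continuousAt.comp h9
    · have hz : z ∉ i '' C := fun hz => h (image_subset_range _ _ hz)
      have h1 : (univ ×ˢ (i '' C)ᶜ : Set (I × M)) ∈ 𝓝 (t, z) :=
        (isOpen_univ.prod hCo).mem_nhds ⟨mem_univ _, hz⟩
      have h2 : H =ᶠ[𝓝 (t, z)] fun p => f p.2 := by
        filter_upwards [h1] with p hp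
        exact H2 p.1 p.2 hp.2
      exact (f.continuous.comp continuous_snd).continuousAt.congr h2.symm
  let F : C(M, N) := ⟨fun z => H (1, z), Hc.comp (by fun_prop)⟩
  have F1 : ∀ x, F (i x) = j (G x) := by
    intro x
    show H (1, i x) = _
    rw [H1]
    simp [hR.ret]
  have F2 : ∀ z, z ∉ i '' C → F z = f z := fun z hz => H2 1 z hz
  have H0 : ∀ z, H (0, z) = f z := by
    intro z
    by_cases h : z ∈ range i
    · obtain ⟨x, rfl⟩ := h
      rw [H1]
      simp [hR.ret, hfg]
    · simp only [H, if_neg h]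
  refine ⟨F, ?_, ⟨⟨⟨H, Hc⟩, H0, fun z => rfl⟩⟩, F1, F2⟩
  rw [isLocalHomeomorph_iff_isLocalHomeomorphOn_univ]
  intro z _
  by_cases hz : z ∈ range i
  · have hGl : IsLocalHomeomorph G :=
      (show IsLocalDiffeomorph (𝓡 (m + 1)) (𝓡 (m + 1)) ∞ G from fun x => hG x).isLocalHomeomorph
    have h1 : IsLocalHomeomorph (F ∘ i) := by
      have h2 : (F : M → N) ∘ i = j ∘ G := funext F1
      rw [h2]
      exact hj.isLocalHomeomorph.comp hGl
    have h3 : IsLocalHomeomorphOn F (i '' univ) :=
      IsLocalHomeomorphOn.of_comp_right (h1.isLocalHomeomorphOn (s := univ))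
        (hi.isLocalHomeomorph.isLocalHomeomorphOn)
    rw [image_univ] at h3
    exact h3 z hz
  · have hz' : z ∉ i '' C := fun hz' => hz (image_subset_range _ _ hz')
    exact lh_congr hCo hCf F2 z hz'

end Pool.Agent.L7h45.NF
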