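import Pool.Agent.L7h45.NF.TopGlue
import Pool.Agent.L7h45.NF.All

/-!
# Project NF: the relative theorem for topological manifolds

`M`, `N` are topological manifolds, `f : M → N` is a local homeomorphism off a compact set near which `f` is
smooth and fold-free, in smooth structures of open subsets of `M` and `N`.
-/

set_option autoImplicit false
set_option linter.unusedSectionVars false

open Set Filter Topology Metric Function
open scoped Manifold ContDiff unitInterval

noncomputable section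

namespace Pool.Agent.L7h45.NF

open Pool.Agent.Y522 Pool.Agent.L7h20.NF Pool.Agent.Y170.NA

/-- approximation by local homeomorphisms -/
theorem top_loc {m : ℕ} {M N X Y : Type} [TopologicalSpace M] [T2Space M]
    [TopologicalSpace N] [T2Space N]
    [TopologicalSpace X] [T2Space X] [ChartedSpace (E (m + 1)) X] [IsManifold (𝓡 (m + 1)) ∞ X]
    [TopologicalSpace Y] [T2Space Y] [ChartedSpace (E (m + 1)) Y] [IsManifold (𝓡 (m + 1)) ∞ Y]
    {i : X → M} (hi : IsOpenEmbedding i) {j : Y → N} (hj : IsOpenEmbedding j) (f : C(M, N))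
    {g : X → Y} (hfg : ∀ x, f (i x) = j (g x)) (hset : SettingY (m := m) g)
    (hrk : ∀ x, ¬ LD (m + 1) g x → RkY (m := m) g x) (hS : IsCompact {x | ¬ LD (m + 1) g x})
    (hloc : IsLocalHomeomorphOn f (range i)ᶜ) {O : Set (M × N)} (hO : IsOpen O)
    (hfO : ∀ z, (z, f z) ∈ O) :
    ∃ (F : C(M, N)) (C : Set X) (G : X → Y), IsCompact C ∧ IsLocalHomeomorph F ∧
      (∀ z, (z, F z) ∈ O) ∧ f.Homotopic F ∧ (∀ z, z ∉ i '' C → F z = f z) ∧
      (∀ x, LD (m + 1) G x) ∧ ∀ x, F (i x) = j (G x) := by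
  classical
  have hg : Continuous g := hset.smooth.continuous
  -- `f` is a local homeomorphism at the regular points
  have hreg : IsLocalHomeomorphOn f (i '' {x | LD (m + 1) g x}) := by
    have h1 : IsLocalHomeomorphOn g {x | LD (m + 1) g x} := by
      have h2 : IsLocalDiffeomorphOn (𝓡 (m + 1)) (𝓡 (m + 1)) ∞ g {x | LD (m + 1) g x} :=
        fun x => x.2
      exact h2.isLocalHomeomorphOn
    have h3 : (f : M → N) ∘ i = j ∘ g := funext hfg
    refine IsLocalHomeomorphOn.of_comp_right (f := i) ?_ hi.isLocalHomeomorph.isLocalHomeomorphOn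
    rw [h3]
    exact (hj.isLocalHomeomorph.isLocalHomeomorphOn (s := univ)).comp h1 (fun _ _ => mem_univ _)
  by_cases hne : {x | ¬ LD (m + 1) g x}.Nonempty
  swap
  · have hall : ∀ x, LD (m + 1) g x := by
      intro x
      by_contra hx
      exact hne ⟨x, hx⟩
    refine ⟨f, ∅, g, isCompact_empty, ?_, hfO, ContinuousMap.Homotopic.refl f, fun _ _ => rfl,
      hall, hfg⟩
    rw [isLocalHomeomorph_iff_isLocalHomeomorphOn_univ]
    intro z _
    by_cases hz : z ∈ range i
    · obtain ⟨x, rfl⟩ := hz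
      exact hreg _ ⟨x, hall x, rfl⟩
    · exact hloc z hz
  -- the local retraction
  obtain ⟨Q, a, κ, ρ, U, hKQ, hR⟩ := exists_loc_ret (m := m) _ (hS.image hg) (hne.image g)
  have hκ : Continuous κ := hR.smk.continuous
  let X' : TopologicalSpace.Opens X := ⟨g ⁻¹' Q, Q.2.preimage hg⟩
  let g' : X' → Q := fun x => ⟨g x, x.2⟩
  have hb : ∀ x : X', (g' x : Y) = (fun x : X' => g (x : X)) x := fun _ => rfl
  have hld : ∀ x : X', LD (m + 1) g' x ↔ LD (m + 1) g (x : X) := fun x =>
    (ld_cod_iff Q hb).trans (ld_opens X' g x)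
  have hset1 := setting_opens X' g hset
  have hset' : SettingY (m := m) g' := setting_cod Q hb hset1
  have hg' : Continuous g' := hset'.smooth.continuous
  have hKX : ∀ x, ¬ LD (m + 1) g x → x ∈ X' := fun x hx => hKQ ⟨x, hx, rfl⟩
  have hS' : IsCompact {x : X' | ¬ LD (m + 1) g' x} := by
    rw [IsInducing.subtypeVal.isCompact_iff]
    have this : ((fun x : X' => (x : X)) '' {x : X' | ¬ LD (m + 1) g' x}) =
        {x | ¬ LD (m + 1) g x} := by
      ext y
      constructor
      · rintro ⟨x, hx, rfl⟩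
        exact fun h => hx ((hld x).2 h)
      · intro hy
        exact ⟨⟨y, hKX y hy⟩, fun h => hy ((hld _).1 h), rfl⟩
    exact this.symm ▸ hS
  have hrk' : ∀ x : X', ¬ LD (m + 1) g' x → RkY (m := m) g' x := fun x hx =>
    rk_cod Q hb hset1 (rk_opens X' g x hset.smooth (hrk _ fun h => hx ((hld x).2 h)))
  obtain ⟨C', hC', hCG⟩ := s_COREY m a X' Q κ ρ U g' hR hset' hS' hrk'
  let i' : X' → M := fun x => i x
  let j' : Q → N := fun y => j y
  have hi' : IsOpenEmbedding i' := hi.comp X'.2.isOpenEmbedding_subtypeVal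
  have hj' : IsOpenEmbedding j' := hj.comp Q.2.isOpenEmbedding_subtypeVal
  obtain ⟨ε, hε, hεU⟩ := ((hC'.image hg').image hκ).exists_thickening_subset_open hR.op (by
    rintro _ ⟨y, -, rfl⟩
    exact hR.mem y)
  obtain ⟨G', hG', hGC', hGO'⟩ := hCG
    ((fun p : X' × Q => (i' p.1, j' p.2)) ⁻¹' O ∩ {p | dist (κ (g' p.1)) (κ p.2) < ε})
    ((hO.preimage ((hi'.continuous.comp continuous_fst).prodMk
      (hj'.continuous.comp continuous_snd))).inter
      (isOpen_lt (((hκ.comp hg').comp continuous_fst).dist (hκ.comp continuous_snd))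
        continuous_const)) (fun x => ⟨by
          show (i x, j (g x)) ∈ O
          rw [← hfg]
          exact hfO _, by simpa using hε⟩)
  have hC'c : IsClosed C' := hC'.isClosed
  -- the singular points are in `C'`
  have hsing : ∀ x : X', ¬ LD (m + 1) g (x : X) → x ∈ C' := by
    intro x hx
    by_contra hxC
    apply hx
    rw [← hld x]
    refine (hG' x).congr ?_
    filter_upwards [hC'c.isOpen_compl.mem_nhds hxC] with y hy
    exact (hGC' y hy).symm
  have hCf : IsLocalHomeomorphOn f (i' '' C')ᶜ := by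
    intro z hz
    by_cases h : z ∈ range i
    · obtain ⟨x, rfl⟩ := h
      refine hreg _ ⟨x, ?_, rfl⟩
      by_contra hx
      exact hz ⟨⟨x, hKX x hx⟩, hsing _ hx, rfl⟩
    · exact hloc z h
  have hseg : ∀ x ∈ C', ∀ t : ℝ, 0 ≤ t → t ≤ 1 →
      (1 - t) • κ (g' x) + t • κ (G' x) ∈ U := by
    intro x hx t h0 h1
    refine hεU (mem_thickening_iff.2 ⟨κ (g' x), ⟨g' x, ⟨x, hx, rfl⟩, rfl⟩, ?_⟩)
    have h2 : dist (κ (g' x)) (κ (G' x)) < ε := (hGO' x).2
    rw [dist_eq_norm] at h2 ⊢
    have h3 : (1 - t) • κ (g' x) + t • κ (G' x) - κ (g' x) = - (t • (κ (g' x) - κ (G' x))) := by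
      module
    rw [h3, norm_neg, norm_smul, Real.norm_of_nonneg h0]
    calc t * ‖κ (g' x) - κ (G' x)‖ ≤ 1 * ‖κ (g' x) - κ (G' x)‖ :=
          mul_le_mul_of_nonneg_right h1 (norm_nonneg _)
      _ < ε := by rwa [one_mul]
  obtain ⟨x₀, hx₀⟩ := hne
  have : Nonempty X' := ⟨⟨x₀, hKX x₀ hx₀⟩⟩
  obtain ⟨F, hF, hfF, hF1, hF2⟩ := glue_top hR hi' hj' f hg' (fun x => hfg x) hC' hCf hG' hGC' hseg
  have hC : IsCompact ((fun x : X' => (x : X)) '' C') := hC'.image continuous_subtype_val
  have hiC : ∀ z, z ∉ i '' ((fun x : X' => (x : X)) '' C') → F z = f z := by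
    intro z hz
    apply hF2
    rintro ⟨x, hx, rfl⟩
    exact hz ⟨x, ⟨x, hx, rfl⟩, rfl⟩
  let G : X → Y := fun x => if h : x ∈ X' then (G' ⟨x, h⟩ : Y) else g x
  have hG1 : ∀ x : X', G (x : X) = (G' x : Y) := by
    intro x
    simp only [G]
    rw [dif_pos x.2]
  have hG2 : ∀ x, x ∉ ((fun x : X' => (x : X)) '' C') → G x = g x := by
    intro x hx
    by_cases h : x ∈ X'
    · have h1 := hG1 ⟨x, h⟩
      have h2 : (⟨x, h⟩ : X') ∉ C' := fun h3 => hx ⟨_, h3, rfl⟩
      rw [hGC' _ h2] at h1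
      exact h1
    · simp only [G, dif_neg h]
  refine ⟨F, _, G, hC, hF, ?_, hfF, hiC, ?_, ?_⟩
  · intro z
    by_cases hz : z ∈ range i'
    · obtain ⟨x, rfl⟩ := hz
      rw [hF1]
      exact (hGO' x).1
    · rw [hF2 z fun h => hz (image_subset_range _ _ h)]
      exact hfO z
  · intro x
    by_cases h : x ∈ X'
    · exact ld_of_opens X' (fun y : X' => (G' y : Y)) G ⟨x, h⟩ hG1
        (LD.comp_fun (LD_val Q _) (hG' _))
    · have hx : LD (m + 1) g x := by
        by_contra hx
        exact h (hKX x hx)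
      have hxC : x ∉ ((fun x : X' => (x : X)) '' C') := by
        rintro ⟨y, -, rfl⟩
        exact h y.2
      refine hx.congr ?_
      filter_upwards [hC.isClosed.isOpen_compl.mem_nhds hxC] with y hy
      exact hG2 y hy
  · intro x
    by_cases h : x ∈ X'
    · have h1 := hF1 ⟨x, h⟩
      have h2 : G x = (G' ⟨x, h⟩ : Y) := hG1 ⟨x, h⟩
      rw [h2]
      exact h1
    · have hxC : x ∉ ((fun x : X' => (x : X)) '' C') := by
        rintro ⟨y, -, rfl⟩
        exact h y.2
      rw [hG2 x hxC, ← hfg]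
      apply hiC
      rintro ⟨y, hy, hyx⟩
      exact hxC (hi.injective hyx ▸ hy)

/-- approximation by homeomorphisms -/
theorem top_main {m : ℕ} {M N X Y : Type} [TopologicalSpace M] [T2Space M] [CompactSpace M]
    [ConnectedSpace M] [ChartedSpace (E (m + 1)) M]
    [TopologicalSpace N] [T2Space N] [ConnectedSpace N]
    [TopologicalSpace X] [ChartedSpace (E (m + 1)) X] [IsManifold (𝓡 (m + 1)) ∞ X]
    [TopologicalSpace Y] [ChartedSpace (E (m + 1)) Y] [IsManifold (𝓡 (m + 1)) ∞ Y]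
    {i : X → M} (hi : IsOpenEmbedding i) {j : Y → N} (hj : IsOpenEmbedding j) (f : C(M, N))
    {g : X → Y} (hfg : ∀ x, f (i x) = j (g x)) (hset : SettingY (m := m) g)
    (hrk : ∀ x, ¬ LD (m + 1) g x → RkY (m := m) g x) (hS : IsCompact {x | ¬ LD (m + 1) g x})
    (hloc : IsLocalHomeomorphOn f (range i)ᶜ) (honto : OntoPi1 f) {O : Set (M × N)}
    (hO : IsOpen O) (hfO : ∀ z, (z, f z) ∈ O) :
    ∃ (h : M ≃ₜ N) (C : Set X) (G : X → Y), IsCompact C ∧ (∀ z, (z, h z) ∈ O) ∧
      f.Homotopic ⟨h, h.continuous⟩ ∧ (∀ z, z ∉ i '' C → h z = f z) ∧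
      (∀ x, LD (m + 1) G x) ∧ ∀ x, h (i x) = j (G x) := by
  have : T2Space X := hi.isEmbedding.t2Space
  have : T2Space Y := hj.isEmbedding.t2Space
  obtain ⟨F, C, G, hC, hF, hFO, hfF, hF2, hG, hFG⟩ := top_loc hi hj f hfg hset hrk hS hloc hO hfO
  have : LocallyPathConnectedSpace M := ChartedSpace.locallyPathConnectedSpace (E (m + 1)) M
  have : PathConnectedSpace M := pathConnectedSpace_iff_connectedSpace.2 inferInstance
  have hinj : Injective F := cov_inj hF hfF honto
  have hsurj : Surjective F := by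
    rw [← range_eq_univ]
    exact IsClopen.eq_univ ⟨(isCompact_range F.continuous).isClosed, hF.isOpenMap.isOpen_range⟩
      (range_nonempty F)
  let h : M ≃ₜ N := (Equiv.ofBijective F ⟨hinj, hsurj⟩).toHomeomorphOfContinuousOpen
    F.continuous hF.isOpenMap
  exact ⟨h, C, G, hC, hFO, hfF, hF2, hG, hFG⟩

end Pool.Agent.L7h45.NF

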